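import Pool.Agent.H.MP_dd1c2e_lc.Defs

/-!
# LOGEQ, part A1: building quantum protocols (local isometries are free, sending several qubits)
-/

set_option autoImplicit false

namespace Pool.Agent.H.MP_dd1c2e_lc.LQ

open Finset

theorem isometry_comp {I J A : Type} [Fintype I] [Fintype J] [Fintype A] {V : I → J → ℂ} {U : J → A → ℂ}
    (hV : IsIsometry V) (hU : IsIsometry U) : IsIsometry (fun i a => ∑ j, V i j * U j a) := by
  intro v
  have h1 : ∀ i, ∑ a, (∑ j, V i j * U j a) * v a = ∑ j, V i j * (∑ a, U j a * v a) := by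
    intro i
    simp only [Finset.sum_mul, Finset.mul_sum]
    rw [Finset.sum_comm]
    exact sum_congr rfl fun j _ => sum_congr rfl fun a _ => by ring
  simp only [h1]
  rw [hV (fun j => ∑ a, U j a * v a), hU v]

open Classical in
/-- relabelling of a register -/
noncomputable def pm {A B : Type} (e : A ≃ B) : B → A → ℂ := fun b a => if a = e.symm b then 1 else 0

theorem pm_apply {A B : Type} [Fintype A] (e : A ≃ B) (v : A → ℂ) (b : B) :
    ∑ a, pm e b a * v a = v (e.symm b) := by
  classical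
  unfold pm
  simp

theorem pm_isometry {A B : Type} [Fintype A] [Fintype B] (e : A ≃ B) : IsIsometry (pm e) := by
  intro v
  simp only [pm_apply]
  exact Equiv.sum_comp e.symm (fun a => ‖v a‖ ^ 2)

open Classical in
/-- the identity on a further register -/
noncomputable def tI {T B B' : Type} (W : B' → B → ℂ) : T × B' → T × B → ℂ :=
  fun p q => if q.1 = p.1 then W p.2 q.2 else 0

theorem tI_apply {T B B' : Type} [Fintype T] [Fintype B] (W : B' → B → ℂ) (v : T × B → ℂ) (p : T × B') :
    ∑ q, tI W p q * v q = ∑ b, W p.2 b * v (p.1, b) := by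
  classical
  rw [Fintype.sum_prod_type]
  rw [Finset.sum_eq_single p.1]
  · exact sum_congr rfl fun b _ => by simp [tI]
  · intro t _ ht
    exact sum_eq_zero fun b _ => by simp [tI, ht]
  · intro h
    exact absurd (mem_univ _) h

theorem tI_isometry {T B B' : Type} [Fintype T] [Fintype B] [Fintype B'] {W : B' → B → ℂ} (hW : IsIsometry W) :
    IsIsometry (tI (T := T) W) := by
  intro v
  simp only [tI_apply]
  rw [Fintype.sum_prod_type, Fintype.sum_prod_type]
  exact sum_congr rfl fun t _ => hW (fun b => v (t, b))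

/-- `ψ` can be prepared with `q` qubits of communication and local isometries. -/
def RL (X Y : Type) (q : ℕ) (A : Type) [Fintype A] (B : Type) [Fintype B] (ψ : X → Y → A → B → ℂ) : Prop :=
  ∃ (A0 : Type) (_ : Fintype A0) (B0 : Type) (_ : Fintype B0) (ψ0 : X → Y → A0 → B0 → ℂ)
    (V : X → A → A0 → ℂ) (W : Y → B → B0 → ℂ), Reach X Y q A0 B0 ψ0 ∧ (∀ x, IsIsometry (V x)) ∧
    (∀ y, IsIsometry (W y)) ∧
    ∀ x y a b, ψ x y a b = ∑ a0, V x a a0 * ∑ b0, W y b b0 * ψ0 x y a0 b0

section

variable {X Y : Type} {q : ℕ} {A : Type} [Fintype A] {B : Type} [Fintype B] {ψ : X → Y → A → B → ℂ}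

theorem RL.ofReach (h : Reach X Y q A B ψ) : RL X Y q A B ψ := by
  refine ⟨A, inferInstance, B, inferInstance, ψ, fun _ => pm (Equiv.refl A), fun _ => pm (Equiv.refl B), h,
    fun _ => pm_isometry _, fun _ => pm_isometry _, ?_⟩
  intro x y a b
  rw [pm_apply, pm_apply]
  rfl

theorem RL.start (ψ : A → B → ℂ) (h : ∑ a, ∑ b, ‖ψ a b‖ ^ 2 = 1) : RL X Y 0 A B (fun _ _ => ψ) :=
  RL.ofReach (Reach.start A B ψ h)

theorem RL.congr {ψ' : X → Y → A → B → ℂ} (h : RL X Y q A B ψ) (he : ∀ x y a b, ψ' x y a b = ψ x y a b) :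
    RL X Y q A B ψ' := by
  have : ψ' = ψ := by
    funext x y a b
    exact he x y a b
  rw [this]
  exact h

theorem RL.locA (h : RL X Y q A B ψ) {A' : Type} [Fintype A'] (U : X → A' → A → ℂ) (hU : ∀ x, IsIsometry (U x)) :
    RL X Y q A' B (fun x y a' b => ∑ a, U x a' a * ψ x y a b) := by
  obtain ⟨A0, i1, B0, i2, ψ0, V, W, h0, hV, hW, e⟩ := h
  refine ⟨A0, i1, B0, i2, ψ0, fun x a' a0 => ∑ a, U x a' a * V x a a0, W, h0,
    fun x => isometry_comp (hU x) (hV x), hW, ?_⟩
  intro x y a' b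
  simp only [e, Finset.mul_sum, Finset.sum_mul]
  rw [Finset.sum_comm]
  refine sum_congr rfl fun a0 _ => ?_
  rw [Finset.sum_comm]
  exact sum_congr rfl fun b0 _ => sum_congr rfl fun a _ => by ring

theorem RL.locB (h : RL X Y q A B ψ) {B' : Type} [Fintype B'] (U : Y → B' → B → ℂ) (hU : ∀ y, IsIsometry (U y)) :
    RL X Y q A B' (fun x y a b' => ∑ b, U y b' b * ψ x y a b) := by
  obtain ⟨A0, i1, B0, i2, ψ0, V, W, h0, hV, hW, e⟩ := h
  refine ⟨A0, i1, B0, i2, ψ0, V, fun y b' b0 => ∑ b, U y b' b * W y b b0, h0,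
    hV, fun y => isometry_comp (hU y) (hW y), ?_⟩
  intro x y a b'
  simp only [e, Finset.mul_sum, Finset.sum_mul]
  rw [Finset.sum_comm]
  refine sum_congr rfl fun a0 _ => ?_
  rw [Finset.sum_comm]
  exact sum_congr rfl fun b0 _ => sum_congr rfl fun a _ => by ring

theorem RL.relA (h : RL X Y q A B ψ) {A' : Type} [Fintype A'] (e : A ≃ A') :
    RL X Y q A' B (fun x y a' b => ψ x y (e.symm a') b) :=
  (h.locA (fun _ => pm e) (fun _ => pm_isometry e)).congr fun x y a b => (pm_apply e (fun a => ψ x y a b) a).symm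

theorem RL.relB (h : RL X Y q A B ψ) {B' : Type} [Fintype B'] (e : B ≃ B') :
    RL X Y q A B' (fun x y a b' => ψ x y a (e.symm b')) :=
  (h.locB (fun _ => pm e) (fun _ => pm_isometry e)).congr fun x y a b => (pm_apply e (ψ x y a) b).symm

theorem tri {A A0 B0 : Type} [Fintype A] [Fintype A0] [Fintype B0] (U : A → ℂ) (V : A → A0 → ℂ) (W : B0 → ℂ)
    (f : A0 → B0 → ℂ) :
    ∑ a, U a * ∑ a0, V a a0 * ∑ b0, W b0 * f a0 b0 = ∑ b0, W b0 * ∑ a0, (∑ a, U a * V a a0) * f a0 b0 := by
  simp only [Finset.mul_sum, Finset.sum_mul]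
  rw [Finset.sum_comm]
  conv_rhs => rw [Finset.sum_comm]
  refine sum_congr rfl fun a0 _ => ?_
  rw [Finset.sum_comm]
  exact sum_congr rfl fun b0 _ => sum_congr rfl fun a _ => by ring

theorem RL.send1A (h : RL X Y q A B ψ) {A' : Type} [Fintype A'] (U : X → A' × Bool → A → ℂ)
    (hU : ∀ x, IsIsometry (U x)) : RL X Y (q + 1) A' (Bool × B) (aliceSend U ψ) := by
  obtain ⟨A0, i1, B0, i2, ψ0, V, W, h0, hV, hW, e⟩ := h
  refine ⟨A', inferInstance, Bool × B0, inferInstance,
    aliceSend (fun x p a0 => ∑ a, U x p a * V x a a0) ψ0, fun _ => pm (Equiv.refl A'), fun y => tI (W y),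
    h0.alice A' _ (fun x => isometry_comp (hU x) (hV x)), fun _ => pm_isometry _, fun y => tI_isometry (hW y), ?_⟩
  intro x y a' b
  rw [pm_apply, tI_apply]
  unfold aliceSend
  simp only [e]
  exact tri _ _ _ _

theorem tri2 {B A0 B0 : Type} [Fintype B] [Fintype A0] [Fintype B0] (U : B → ℂ) (V : A0 → ℂ) (W : B → B0 → ℂ)
    (f : A0 → B0 → ℂ) :
    ∑ b, U b * ∑ a0, V a0 * ∑ b0, W b b0 * f a0 b0 = ∑ a0, V a0 * ∑ b0, (∑ b, U b * W b b0) * f a0 b0 := by
  simp only [Finset.mul_sum, Finset.sum_mul]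
  rw [Finset.sum_comm]
  refine sum_congr rfl fun a0 _ => ?_
  rw [Finset.sum_comm]
  exact sum_congr rfl fun b0 _ => sum_congr rfl fun a _ => by ring

theorem RL.send1B (h : RL X Y q A B ψ) {B' : Type} [Fintype B'] (U : Y → B' × Bool → B → ℂ)
    (hU : ∀ y, IsIsometry (U y)) : RL X Y (q + 1) (Bool × A) B' (bobSend U ψ) := by
  obtain ⟨A0, i1, B0, i2, ψ0, V, W, h0, hV, hW, e⟩ := h
  refine ⟨Bool × A0, inferInstance, B', inferInstance,
    bobSend (fun y p b0 => ∑ b, U y p b * W y b b0) ψ0, fun x => tI (V x), fun _ => pm (Equiv.refl B'),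
    h0.bob B' _ (fun y => isometry_comp (hU y) (hW y)), fun x => tI_isometry (hV x), fun _ => pm_isometry _, ?_⟩
  intro x y a b'
  simp only [pm_apply]
  rw [tI_apply]
  unfold bobSend
  simp only [e]
  exact tri2 _ _ _ _

/-- the identity `ℂ^(A × M) → ℂ^A ⊗ ℂ^M`, sending the second component -/
theorem sendFinA {X Y : Type} (k : ℕ) : ∀ {q : ℕ} {A : Type} [Fintype A] {B : Type} [Fintype B]
    {ψ : X → Y → A → B → ℂ} {A' : Type} [Fintype A'] (U : X → A' × (Fin k → Bool) → A → ℂ),
    (∀ x, IsIsometry (U x)) → RL X Y q A B ψ →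
    RL X Y (q + k) A' ((Fin k → Bool) × B) (fun x y a' mb => ∑ a, U x (a', mb.1) a * ψ x y a mb.2) := by
  induction k with
  | zero =>
    intro q A _ B _ ψ A' _ U hU h
    have h1 := (h.locA (fun x a' a => U x (a', default) a) (fun x v => by
      have h2 := hU x v
      rw [Fintype.sum_prod_type] at h2
      simp only [Fintype.sum_subsingleton _ (default : Fin 0 → Bool)] at h2
      exact h2)).relB (Equiv.uniqueProd B (Fin 0 → Bool)).symm
    refine h1.congr fun x y a b => ?_
    obtain ⟨b1, b2⟩ := b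
    have e1 : b1 = default := Subsingleton.elim _ _
    subst e1
    rfl
  | succ k ih =>
    intro q A _ B _ ψ A' _ U hU h
    have h1 := h.send1A (A' := A' × (Fin k → Bool)) (fun x p a => U x (p.1.1, Fin.cons p.2 p.1.2) a) (by
      intro x v
      have h2 := hU x v
      rw [← h2]
      let e : ((A' × (Fin k → Bool)) × Bool) ≃ (A' × (Fin (k + 1) → Bool)) :=
        { toFun := fun p => (p.1.1, Fin.cons p.2 p.1.2)
          invFun := fun p => ((p.1, Fin.tail p.2), p.2 0)
          left_inv := fun p => by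
            obtain ⟨⟨a, w⟩, t⟩ := p
            simp
          right_inv := fun p => by
            obtain ⟨a, w⟩ := p
            simp }
      exact Fintype.sum_equiv e _ _ (fun p => rfl))
    have h3 := ih (A' := A') (fun _ => pm (Equiv.refl (A' × (Fin k → Bool)))) (fun _ => pm_isometry _) h1
    have h4 := h3.relB (B' := (Fin (k + 1) → Bool) × B)
      { toFun := fun p => (Fin.cons p.2.1 p.1, p.2.2)
        invFun := fun p => (Fin.tail p.1, (p.1 0, p.2))
        left_inv := fun p => by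
          obtain ⟨w, t, b⟩ := p
          simp
        right_inv := fun p => by
          obtain ⟨w, b⟩ := p
          simp }
    have e1 : q + (k + 1) = q + 1 + k := by ring
    rw [e1]
    refine h4.congr fun x y a b => ?_
    obtain ⟨w, b⟩ := b
    simp only [pm_apply, aliceSend, Equiv.coe_fn_symm_mk, Equiv.refl_symm, Equiv.refl_apply, Fin.cons_self_tail]

theorem sendFinB {X Y : Type} (k : ℕ) : ∀ {q : ℕ} {A : Type} [Fintype A] {B : Type} [Fintype B]
    {ψ : X → Y → A → B → ℂ} {B' : Type} [Fintype B'] (U : Y → B' × (Fin k → Bool) → B → ℂ),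
    (∀ y, IsIsometry (U y)) → RL X Y q A B ψ →
    RL X Y (q + k) ((Fin k → Bool) × A) B' (fun x y ma b' => ∑ b, U y (b', ma.1) b * ψ x y ma.2 b) := by
  induction k with
  | zero =>
    intro q A _ B _ ψ B' _ U hU h
    have h1 := (h.locB (fun y b' b => U y (b', default) b) (fun y v => by
      have h2 := hU y v
      rw [Fintype.sum_prod_type] at h2
      simp only [Fintype.sum_subsingleton _ (default : Fin 0 → Bool)] at h2
      exact h2)).relA (Equiv.uniqueProd A (Fin 0 → Bool)).symm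
    refine h1.congr fun x y a b => ?_
    obtain ⟨a1, a2⟩ := a
    have e1 : a1 = default := Subsingleton.elim _ _
    subst e1
    rfl
  | succ k ih =>
    intro q A _ B _ ψ B' _ U hU h
    have h1 := h.send1B (B' := B' × (Fin k → Bool)) (fun y p b => U y (p.1.1, Fin.cons p.2 p.1.2) b) (by
      intro y v
      have h2 := hU y v
      rw [← h2]
      let e : ((B' × (Fin k → Bool)) × Bool) ≃ (B' × (Fin (k + 1) → Bool)) :=
        { toFun := fun p => (p.1.1, Fin.cons p.2 p.1.2)
          invFun := fun p => ((p.1, Fin.tail p.2), p.2 0)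
          left_inv := fun p => by
            obtain ⟨⟨a, w⟩, t⟩ := p
            simp
          right_inv := fun p => by
            obtain ⟨a, w⟩ := p
            simp }
      exact Fintype.sum_equiv e _ _ (fun p => rfl))
    have h3 := ih (B' := B') (fun _ => pm (Equiv.refl (B' × (Fin k → Bool)))) (fun _ => pm_isometry _) h1
    have h4 := h3.relA (A' := (Fin (k + 1) → Bool) × A)
      { toFun := fun p => (Fin.cons p.2.1 p.1, p.2.2)
        invFun := fun p => (Fin.tail p.1, (p.1 0, p.2))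
        left_inv := fun p => by
          obtain ⟨w, t, b⟩ := p
          simp
        right_inv := fun p => by
          obtain ⟨w, b⟩ := p
          simp }
    have e1 : q + (k + 1) = q + 1 + k := by ring
    rw [e1]
    refine h4.congr fun x y a b => ?_
    obtain ⟨w, a⟩ := a
    simp only [pm_apply, bobSend, Equiv.coe_fn_symm_mk, Equiv.refl_symm, Equiv.refl_apply, Fin.cons_self_tail]

/-- Alice sends a register of dimension `2 ^ k`. -/
theorem RL.sendA (h : RL X Y q A B ψ) {M : Type} [Fintype M] {k : ℕ} (hM : Fintype.card M = 2 ^ k) {A' : Type}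
    [Fintype A'] (U : X → A' × M → A → ℂ) (hU : ∀ x, IsIsometry (U x)) :
    RL X Y (q + k) A' (M × B) (fun x y a' mb => ∑ a, U x (a', mb.1) a * ψ x y a mb.2) := by
  have e : M ≃ (Fin k → Bool) := Fintype.equivOfCardEq (by rw [hM]; simp)
  have h1 := sendFinA k (A' := A') (fun x p a => U x (p.1, e.symm p.2) a) (by
    intro x v
    rw [← hU x v]
    exact Fintype.sum_equiv ((Equiv.refl A').prodCongr e.symm) _ _ (fun p => rfl)) h
  have h2 := h1.relB (e.symm.prodCongr (Equiv.refl B))
  refine h2.congr fun x y a b => ?_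
  obtain ⟨m, b⟩ := b
  simp

/-- Bob sends a register of dimension `2 ^ k`. -/
theorem RL.sendB (h : RL X Y q A B ψ) {M : Type} [Fintype M] {k : ℕ} (hM : Fintype.card M = 2 ^ k) {B' : Type}
    [Fintype B'] (U : Y → B' × M → B → ℂ) (hU : ∀ y, IsIsometry (U y)) :
    RL X Y (q + k) (M × A) B' (fun x y ma b' => ∑ b, U y (b', ma.1) b * ψ x y ma.2 b) := by
  have e : M ≃ (Fin k → Bool) := Fintype.equivOfCardEq (by rw [hM]; simp)
  have h1 := sendFinB k (B' := B') (fun y p b => U y (p.1, e.symm p.2) b) (by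
    intro y v
    rw [← hU y v]
    exact Fintype.sum_equiv ((Equiv.refl B').prodCongr e.symm) _ _ (fun p => rfl)) h
  have h2 := h1.relA (e.symm.prodCongr (Equiv.refl A))
  refine h2.congr fun x y a b => ?_
  obtain ⟨m, a⟩ := a
  simp

/-- Alice measures at the end. -/
theorem RL.finalA (h : RL X Y q A B ψ) {F : X → Y → Bool} {A' : Type} [Fintype A'] (U : X → A' × Bool → A → ℂ)
    (hU : ∀ x, IsIsometry (U x))
    (hp : ∀ x y, 2 / 3 ≤ ∑ a', ∑ b, ‖∑ a, U x (a', F x y) a * ψ x y a b‖ ^ 2) : QuantumComputes F q := by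
  obtain ⟨A0, i1, B0, i2, ψ0, V, W, h0, hV, hW, e⟩ := h
  refine ⟨A0, i1, B0, i2, ψ0, h0, Or.inl ⟨A', inferInstance, fun x p a0 => ∑ a, U x p a * V x a a0,
    fun x => isometry_comp (hU x) (hV x), fun x y => (hp x y).trans (le_of_eq ?_)⟩⟩
  refine sum_congr rfl fun a' _ => ?_
  have h1 := hW y (fun b0 => ∑ a0, (∑ a, U x (a', F x y) a * V x a a0) * ψ0 x y a0 b0)
  unfold aliceSend
  rw [← h1]
  refine sum_congr rfl fun b _ => ?_
  simp only [e]
  rw [tri]

end

end Pool.Agent.H.MP_dd1c2e_lc.LQ
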